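import Mathlib

namespace Pool.Agent.Results.MP_52c232_nt.Exists

/-- A `4 × 4` integer matrix with no entry in `{-1, 0, 1}` whose determinant and the
determinant of whose entrywise cube both equal `1`. -/
theorem result : ∃ (n : ℕ) (A : Matrix (Fin n) (Fin n) ℤ), 1 ≤ n ∧
    (∀ i j, A i j ≠ -1 ∧ A i j ≠ 0 ∧ A i j ≠ 1) ∧
    A.det = 1 ∧ (Matrix.of fun i j => A i j ^ 3).det = 1 := by
  refine ⟨4, !![6, 5, 2, 4; 5, 4, 2, 3; 2, 3, -2, 3; 6, 4, 3, 2], by norm_num, ?_, ?_, ?_⟩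
  · decide
  · decide +kernel
  · decide +kernel

end Pool.Agent.Results.MP_52c232_nt.Exists
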